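import Mathlib
import Pool.Agent.H27.Filt

set_option autoImplicit false

namespace Pool.Agent.Results.MP_aa1901_an.NotCongNoMeasure

/-- A free filter: proper and containing every cofinite set. -/
def Free (F : Filter ℕ) : Prop := ∅ ∉ F ∧ ∀ A : Set ℕ, Aᶜ.Finite → A ∈ F

/-- `F` is conglomerated: there are pairwise disjoint sets `D n` of the ideal such that every
union of infinitely many of them lies in the grill. -/
def Conglomerated (F : Filter ℕ) : Prop :=
  ∃ D : ℕ → Set ℕ, Pairwise (fun m n => Disjoint (D m) (D n)) ∧ (∀ n, (D n)ᶜ ∈ F) ∧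
    ∀ M : Set ℕ, M.Infinite → (⋃ n ∈ M, D n)ᶜ ∉ F

/-- A statistical measure: finitely additive, nonnegative, total mass one, zero on points. -/
def StatMeasure (μ : Set ℕ → ℝ) : Prop :=
  (∀ A, 0 ≤ μ A) ∧ (∀ A B, Disjoint A B → μ (A ∪ B) = μ A + μ B) ∧ μ Set.univ = 1 ∧
    ∀ k, μ {k} = 0

/-- `F` is the filter of sets of full measure for some statistical measure. -/
def Generated (F : Filter ℕ) : Prop :=
  ∃ μ : Set ℕ → ℝ, StatMeasure μ ∧ ∀ A, A ∈ F ↔ μ A = 1

theorem result : ∃ F : Filter ℕ, Free F ∧ ¬ Conglomerated F ∧ ¬ Generated F := by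
  obtain ⟨F, h1, h2, h3, h4⟩ := Pool.Agent.H27.Filt.exists_poor
  refine ⟨F, ⟨Filter.empty_notMem F, fun A hA => h2 hA⟩, ?_, ?_⟩
  · rintro ⟨D, a, b, c⟩
    obtain ⟨𝒜, p, q, r⟩ := Pool.Agent.H27.Filt.not_poor_of_cong a b c
    exact r (h3 𝒜 p q)
  · rintro ⟨μ, ⟨a, b, c, -⟩, h⟩
    exact h4 μ a b c h

end Pool.Agent.Results.MP_aa1901_an.NotCongNoMeasure
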